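import Mathlib

/-!
The value k = 3 is not admissible: the pair exp(e^z), exp(e^(-z)).
-/

set_option autoImplicit false

namespace Pool.Agent.Results.MP_bcf514_an.ThreeNotEnough

open Complex

theorem dF (z : ℂ) : HasDerivAt (fun z => exp (exp z)) (exp z * exp (exp z)) z := by
  have := (hasDerivAt_exp z).cexp
  exact this.congr_deriv (by ring)

theorem dx (z : ℂ) : HasDerivAt (fun z => exp (-z)) (-exp (-z)) z := by
  have := (hasDerivAt_id z).neg.cexp
  exact this.congr_deriv (by simp)

theorem dG (z : ℂ) : HasDerivAt (fun z => exp (exp (-z))) (-(exp (-z) * exp (exp (-z)))) z := by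
  have := (dx z).cexp
  exact this.congr_deriv (by ring)

theorem F1 : iteratedDeriv 1 (fun z : ℂ => exp (exp z)) = fun z => exp z * exp (exp z) := by
  rw [iteratedDeriv_one]; exact funext fun z => (dF z).deriv

theorem F2 : iteratedDeriv 2 (fun z : ℂ => exp (exp z)) =
    fun z => (exp z + exp z * exp z) * exp (exp z) := by
  rw [iteratedDeriv_succ, F1]
  funext z
  have := ((hasDerivAt_exp z).mul (dF z)).deriv
  refine this.trans ?_
  ring

theorem F3 : iteratedDeriv 3 (fun z : ℂ => exp (exp z)) =
    fun z => (exp z + 3 * (exp z * exp z) + exp z * exp z * exp z) * exp (exp z) := by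
  rw [iteratedDeriv_succ, F2]
  funext z
  have h1 := hasDerivAt_exp z
  have := ((h1.add (h1.mul h1)).mul (dF z)).deriv
  refine this.trans ?_
  simp only [Pi.add_apply, Pi.mul_apply]
  ring

theorem G1 : iteratedDeriv 1 (fun z : ℂ => exp (exp (-z))) =
    fun z => -(exp (-z) * exp (exp (-z))) := by
  rw [iteratedDeriv_one]; exact funext fun z => (dG z).deriv

theorem G2 : iteratedDeriv 2 (fun z : ℂ => exp (exp (-z))) =
    fun z => (exp (-z) + exp (-z) * exp (-z)) * exp (exp (-z)) := by
  rw [iteratedDeriv_succ, G1]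
  funext z
  have := ((dx z).mul (dG z)).neg.deriv
  refine this.trans ?_
  ring

theorem G3 : iteratedDeriv 3 (fun z : ℂ => exp (exp (-z))) =
    fun z => -((exp (-z) + 3 * (exp (-z) * exp (-z)) + exp (-z) * exp (-z) * exp (-z)) *
      exp (exp (-z))) := by
  rw [iteratedDeriv_succ, G2]
  funext z
  have h1 := dx z
  have := ((h1.add (h1.mul h1)).mul (dG z)).deriv
  refine this.trans ?_
  simp only [Pi.add_apply, Pi.mul_apply]
  ring

/-- There are entire functions `f`, `g` such that `f^(n)/g^(n)` is entire and zero-free for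
`n = 0, 1, 2, 3`, whose ratio is not constant and which are not exceptional. -/
theorem result :
    ∃ f g : ℂ → ℂ, Differentiable ℂ f ∧ Differentiable ℂ g ∧
      (∀ n : ℕ, n ≤ 3 →
        (∃ z : ℂ, iteratedDeriv n g z ≠ 0) ∧
        ∃ h : ℂ → ℂ, Differentiable ℂ h ∧ (∀ z : ℂ, h z ≠ 0) ∧
          ∀ z : ℂ, iteratedDeriv n f z = h z * iteratedDeriv n g z) ∧
      ¬ (∃ c : ℂ, ∀ z : ℂ, f z = c * g z) ∧
      ¬ (∃ a b c d : ℂ, ∀ z : ℂ,
          f z = Complex.exp (a * z + b) ∧ g z = Complex.exp (c * z + d)) ∧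
      ¬ (∃ a b A B : ℂ, b ≠ 0 ∧ ∀ z : ℂ,
          f z = A * (Complex.exp (a * z) - b) ∧
          g z = B * (Complex.exp (-(a * z)) - b⁻¹)) := by
  have hne : exp (exp 1) ≠ exp (exp (-1)) := by
    intro h
    have h1 := congrArg (fun z : ℂ => ‖z‖) h
    simp only [Complex.norm_exp] at h1
    have h2 := Real.exp_injective h1
    have e1 : (exp (1 : ℂ)).re = Real.exp 1 := by
      rw [← ofReal_one, ← ofReal_exp, ofReal_re]
    have e2 : (exp (-1 : ℂ)).re = Real.exp (-1) := by
      rw [show (-1 : ℂ) = ((-1 : ℝ) : ℂ) by simp, ← ofReal_exp, ofReal_re]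
    rw [e1, e2] at h2
    have := Real.exp_injective h2
    norm_num at this
  have hne2 : exp (exp 1) ≠ exp (exp 0) := by
    intro h
    have h1 := congrArg (fun z : ℂ => ‖z‖) h
    simp only [Complex.norm_exp] at h1
    have h2 := Real.exp_injective h1
    have e1 : (exp (1 : ℂ)).re = Real.exp 1 := by
      rw [← ofReal_one, ← ofReal_exp, ofReal_re]
    rw [e1, exp_zero, one_re] at h2
    have := Real.add_one_le_exp 1
    linarith
  have xx : ∀ z : ℂ, exp (-z) * exp z = 1 := fun z => by
    rw [← exp_add, neg_add_cancel, exp_zero]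
  refine ⟨fun z => exp (exp z), fun z => exp (exp (-z)), fun z => (dF z).differentiableAt,
    fun z => (dG z).differentiableAt, ?_, ?_, ?_, ?_⟩
  · -- the unit at level `n` is `c e^(m z) exp(e^z - e^(-z))`
    have mk : ∀ (n m : ℕ) (c : ℂ), c ≠ 0 →
        (∀ z, iteratedDeriv n (fun z : ℂ => exp (exp z)) z * exp (exp (-z)) =
          c * exp z ^ m * exp (exp z) * iteratedDeriv n (fun z : ℂ => exp (exp (-z))) z) →
        ∃ h : ℂ → ℂ, Differentiable ℂ h ∧ (∀ z : ℂ, h z ≠ 0) ∧
          ∀ z : ℂ, iteratedDeriv n (fun z : ℂ => exp (exp z)) z =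
            h z * iteratedDeriv n (fun z : ℂ => exp (exp (-z))) z := by
      intro n m c hc h
      refine ⟨fun z => c * exp z ^ m * exp (exp z) * exp (-exp (-z)), by fun_prop, fun z => ?_,
        fun z => ?_⟩
      · exact mul_ne_zero (mul_ne_zero (mul_ne_zero hc (pow_ne_zero _ (exp_ne_zero _)))
          (exp_ne_zero _)) (exp_ne_zero _)
      · have h1 := h z
        have h2 : exp (exp (-z)) * exp (-exp (-z)) = 1 := by
          rw [← exp_add, add_neg_cancel, exp_zero]
        have h3 : iteratedDeriv n (fun z : ℂ => exp (exp z)) z =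
            (iteratedDeriv n (fun z : ℂ => exp (exp z)) z * exp (exp (-z))) * exp (-exp (-z)) := by
          rw [mul_assoc, h2, mul_one]
        rw [h3, h1]; ring
    have e0 : exp (-(0 : ℂ)) = 1 := by simp
    intro n hn
    interval_cases n
    · refine ⟨⟨0, ?_⟩, mk 0 0 1 one_ne_zero fun z => ?_⟩
      · rw [iteratedDeriv_zero]; exact exp_ne_zero _
      · rw [iteratedDeriv_zero, iteratedDeriv_zero]; ring
    · refine ⟨⟨0, ?_⟩, mk 1 2 (-1) (by norm_num) fun z => ?_⟩
      · rw [G1]; exact neg_ne_zero.mpr (mul_ne_zero (exp_ne_zero _) (exp_ne_zero _))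
      · rw [F1, G1]
        have := xx z
        linear_combination (-exp z * exp (exp z) * exp (exp (-z))) * this
    · refine ⟨⟨0, ?_⟩, mk 2 3 1 one_ne_zero fun z => ?_⟩
      · rw [G2]
        simp only [e0]
        exact mul_ne_zero (by norm_num) (exp_ne_zero _)
      · rw [F2, G2]
        have := xx z
        linear_combination (-(exp z ^ 2 + exp z * (exp z * exp (-z) + 1)) * exp (exp z) *
          exp (exp (-z))) * this
    · refine ⟨⟨0, ?_⟩, mk 3 4 (-1) (by norm_num) fun z => ?_⟩
      · rw [G3]
        simp only [e0]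
        exact neg_ne_zero.mpr (mul_ne_zero (by norm_num) (exp_ne_zero _))
      · rw [F3, G3]
        have := xx z
        linear_combination (-(exp z ^ 3 + 3 * exp z ^ 2 * (exp z * exp (-z) + 1) +
          exp z * ((exp z * exp (-z)) ^ 2 + exp z * exp (-z) + 1)) * exp (exp z) *
          exp (exp (-z))) * this
  · rintro ⟨c, hc⟩
    have h0 := hc 0
    have h1 := hc 1
    simp only [neg_zero] at h0
    have hc1 : c = 1 := by
      have := exp_ne_zero (exp 0)
      field_simp at h0
      exact h0.symm
    rw [hc1, one_mul] at h1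
    exact hne h1
  · rintro ⟨a, b, c, d, h⟩
    have hfun : (fun z : ℂ => exp (exp z)) = fun z => exp (a * z + b) := funext fun z => (h z).1
    have hd : ∀ z, exp z = a := by
      intro z
      have h1 := (dF z).deriv
      rw [hfun] at h1
      have h2 : HasDerivAt (fun z : ℂ => exp (a * z + b)) (exp (a * z + b) * (a * 1)) z :=
        (((hasDerivAt_id z).const_mul a).add_const b).cexp
      rw [h2.deriv] at h1
      have h3 := (h z).1
      rw [← h3] at h1
      have h4 := exp_ne_zero (exp z)
      have h5 : exp (exp z) * (exp z - a) = 0 := by linear_combination -h1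
      exact sub_eq_zero.mp ((mul_eq_zero.mp h5).resolve_left h4)
    apply hne2
    rw [hd 1, hd 0]
  · rintro ⟨a, b, A, B, hb, h⟩
    by_cases ha : a = 0
    · apply hne2
      have h0 := (h 0).1
      have h1 := (h 1).1
      rw [ha, zero_mul] at h0 h1
      exact h1.trans h0.symm
    · have h1 := (h (log b / a)).1
      have h2 : a * (log b / a) = log b := by field_simp
      rw [h2, exp_log hb, sub_self, mul_zero] at h1
      exact exp_ne_zero _ h1

end Pool.Agent.Results.MP_bcf514_an.ThreeNotEnough
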